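import Pool.Agent.E8helper2.PS.Stm

/-!
# Project PS, piece S_SEC (helper82)
-/

set_option autoImplicit false

open Filter Topology

namespace Pool.Agent.E8helper82.PS

open Pool.Agent.E8helper2.PS

lemma norm_e (θ t : ℝ) (j : ℕ) :
    ‖Complex.exp (Complex.I * j * ((θ : ℂ) + t * Complex.I))‖ = Real.exp (-t) ^ j := by
  rw [Complex.norm_exp, ← Real.exp_nat_mul]
  congr 1
  simp

lemma term_le (c : ℕ → ℂ) (M : ℝ) (hc : ∀ n, ‖c n‖ ≤ M) (θ t : ℝ) (j : ℕ) :
    ‖c j * Complex.exp (Complex.I * j * ((θ : ℂ) + t * Complex.I))‖ ≤ M * Real.exp (-t) ^ j := by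
  rw [norm_mul, norm_e]
  exact mul_le_mul_of_nonneg_right (hc j) (by positivity)

lemma exp_neg_lt {t : ℝ} (ht : 0 < t) : Real.exp (-t) < 1 := by
  rw [Real.exp_lt_one_iff]
  linarith

lemma summ (c : ℕ → ℂ) (M : ℝ) (hc : ∀ n, ‖c n‖ ≤ M) (θ t : ℝ) (ht : 0 < t) :
    Summable (fun j : ℕ => c j * Complex.exp (Complex.I * j * ((θ : ℂ) + t * Complex.I))) := by
  refine Summable.of_norm_bounded (g := fun j : ℕ => M * Real.exp (-t) ^ j) ?_
    (fun j => term_le c M hc θ t j)
  exact (summable_geometric_of_lt_one (Real.exp_pos _).le (exp_neg_lt ht)).mul_left M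

theorem t_SEC (h1 : S_POLY) : S_SEC := by
  intro c M κ κ' hc hw hw' hκ θ t hθ hθ' ht ht0
  have hM : 0 ≤ M := (norm_nonneg _).trans (hc 0)
  rcases lt_or_ge t (1 / 2) with hlt | hge
  · have hα : κ' - κ ≤ t := by
      rcases ht with h | h
      · exact h
      · linarith
    have hα0 : 0 < κ' - κ := by linarith
    obtain ⟨l, hl⟩ : ∃ l : ℕ, l = ⌊1 / (κ' - κ)⌋₊ + 1 := ⟨_, rfl⟩
    have hl1 : 1 ≤ l := by omega
    have hl2 : 1 / (κ' - κ) < l := by
      rw [hl]; push_cast
      exact Nat.lt_floor_add_one _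
    have hl3 : (l : ℝ) ≤ 1 / (κ' - κ) + 1 := by
      rw [hl]; push_cast
      have := Nat.floor_le (by positivity : 0 ≤ 1 / (κ' - κ))
      linarith
    have hl4 : 1 < l * (κ' - κ) := by
      rwa [div_lt_iff₀ hα0] at hl2
    have hl5 : l * (κ' - κ) ≤ 3 / 2 := by
      have h2 := mul_le_mul_of_nonneg_right hl3 hα0.le
      have h3 : (1 / (κ' - κ) + 1) * (κ' - κ) = 1 + (κ' - κ) := by field_simp
      rw [h3] at h2
      linarith
    have hlt1 : 1 ≤ (l : ℝ) * t := by
      have h2 : (l : ℝ) * (κ' - κ) ≤ l * t := mul_le_mul_of_nonneg_left hα (Nat.cast_nonneg l)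
      linarith
    set w : ℂ := (θ : ℂ) + t * Complex.I with hwdef
    have hwre : w.re = θ := by simp [hwdef]
    have hwim : w.im = t := by simp [hwdef]
    have hpart : ∀ K : ℕ, ‖∑ n ∈ Finset.range (K * l), c n * Complex.exp (Complex.I * n * w)‖ ≤
        2 * M * ∑ k ∈ Finset.range K, Real.exp (-1) ^ k := by
      intro K
      induction K with
      | zero => simp
      | succ K ih =>
        rw [Nat.succ_mul, Finset.sum_range_add, Finset.sum_range_succ, mul_add]
        refine (norm_add_le _ _).trans (add_le_add ih ?_)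
        have e : ∑ x ∈ Finset.range l, c (K * l + x) *
            Complex.exp (Complex.I * ((K * l + x : ℕ) : ℂ) * w) =
            Complex.exp (Complex.I * ((K * l : ℕ) : ℂ) * w) *
              ∑ j ∈ Finset.range l, c (K * l + j) * Complex.exp (Complex.I * j * w) := by
          rw [Finset.mul_sum]
          refine Finset.sum_congr rfl fun x _ => ?_
          have e2 : Complex.I * ((K * l + x : ℕ) : ℂ) * w =
              Complex.I * ((K * l : ℕ) : ℂ) * w + Complex.I * (x : ℂ) * w := by
            push_cast; ring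
          rw [e2, Complex.exp_add]
          ring
        rw [e, norm_mul, hwdef, norm_e, ← hwdef]
        have h2 := h1 c M κ κ' l hw hw' hκ hl5 hl1 (K * l) w (by rw [hwre]; exact hθ)
          (by rw [hwre]; exact hθ') (by rw [hwim]; exact ht0.le)
        have h3 : Real.exp (-t) ^ (K * l) ≤ Real.exp (-1) ^ K := by
          rw [mul_comm K l, pow_mul]
          refine pow_le_pow_left₀ (by positivity) ?_ K
          rw [← Real.exp_nat_mul]
          apply Real.exp_le_exp.2
          linarith
        calc Real.exp (-t) ^ (K * l) *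
              ‖∑ j ∈ Finset.range l, c (K * l + j) * Complex.exp (Complex.I * j * w)‖
            ≤ Real.exp (-1) ^ K * (2 * M) :=
              mul_le_mul h3 h2 (norm_nonneg _) (by positivity)
          _ = 2 * M * Real.exp (-1) ^ K := by ring
    have he : Real.exp (-1) ≤ 1 / 2 := by
      have h2 : (2 : ℝ) ≤ Real.exp 1 := by
        have := Real.add_one_le_exp (1 : ℝ)
        linarith
      rw [Real.exp_neg, ← one_div]
      exact one_div_le_one_div_of_le (by norm_num) h2
    have he0 : 0 < Real.exp (-1) := Real.exp_pos _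
    have hgeo : ∀ K : ℕ, ∑ k ∈ Finset.range K, Real.exp (-1) ^ k ≤ 2 := by
      intro K
      have h2 := sum_le_hasSum (Finset.range K) (fun i _ => by positivity)
        (hasSum_geometric_of_lt_one he0.le (by linarith))
      refine h2.trans ?_
      rw [inv_le_comm₀ (by linarith) (by norm_num)]
      linarith
    have htend := (summ c M hc θ t ht0).hasSum.tendsto_sum_nat
    have hsub : Tendsto (fun K : ℕ => K * l) atTop atTop :=
      tendsto_id.atTop_mul_const' (by omega)
    have htend2 := htend.comp hsub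
    refine le_of_tendsto htend2.norm (Eventually.of_forall fun K => ?_)
    refine (hpart K).trans ?_
    have h2 := mul_le_mul_of_nonneg_left (hgeo K) (by positivity : 0 ≤ 2 * M)
    linarith
  · have hsum := (hasSum_geometric_of_lt_one (Real.exp_pos (-t)).le (exp_neg_lt ht0)).mul_left M
    have h2 := tsum_of_norm_bounded hsum (fun j => term_le c M hc θ t j)
    refine h2.trans ?_
    have h3 : Real.exp (-t) ≤ 2 / 3 := by
      have h4 : (3 / 2 : ℝ) ≤ Real.exp t := by
        have := Real.add_one_le_exp t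
        linarith
      rw [Real.exp_neg, inv_le_comm₀ (Real.exp_pos _) (by norm_num)]
      linarith
    have h5 : (1 - Real.exp (-t))⁻¹ ≤ 4 := by
      rw [inv_le_comm₀ (by linarith) (by norm_num)]
      linarith
    have h6 := mul_le_mul_of_nonneg_left h5 hM
    linarith

end Pool.Agent.E8helper82.PS
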